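import Pool.Agent.Run7.h35.EX.Stm

/-!
# Piece FILL of project EX (helper35): filling from the one-step estimate
-/

set_option autoImplicit false

namespace Run7.h376.EX

open Run7.h35.EX

noncomputable section

variable {V ι : Type} [Fintype V] [AddCommGroup V] [Fintype ι] [Nonempty ι]

theorem fav_mul {T : Type} [Fintype T] (c : ℝ) (f : T → ℝ) : av (fun t => c * f t) = c * av f := by
  unfold av
  rw [← Finset.mul_sum, mul_div_assoc]

theorem fav_nonneg {T : Type} [Fintype T] (f : T → ℝ) (h : ∀ t, 0 ≤ f t) : 0 ≤ av f := by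
  unfold av
  exact div_nonneg (Finset.sum_nonneg fun t _ => h t) (Nat.cast_nonneg _)

theorem fnrm1_nonneg (a : V → ι → ℝ) : 0 ≤ nrm1 a :=
  fav_nonneg _ fun _ => fav_nonneg _ fun _ => abs_nonneg _

theorem fnrm2_nonneg (s : ι → V) (a : V → ι → ℝ) : 0 ≤ nrm2 s a :=
  fav_nonneg _ fun _ => fav_nonneg _ fun _ => fav_nonneg _ fun _ => abs_nonneg _

theorem fnrm1_mul (c : ℝ) (a : V → ι → ℝ) : nrm1 (fun x i => c * a x i) = |c| * nrm1 a := by
  unfold nrm1
  simp only [abs_mul, fav_mul]

theorem fd1_eq (s : ι → V) (c : ℝ) (a : V → ι → ℝ) (f : V → ℝ) (x : V) (i j : ι) :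
    d1 s (fun x i => c * (a x i - d0 s f x i)) x i j = c * d1 s a x i j := by
  have h : x + s i + s j = x + s j + s i := by abel
  simp only [d1, d0]
  rw [h]
  ring

theorem fnrm2_mul (s : ι → V) (c : ℝ) (a : V → ι → ℝ) (f : V → ℝ) :
    nrm2 s (fun x i => c * (a x i - d0 s f x i)) = |c| * nrm2 s a := by
  unfold nrm2
  simp only [fd1_eq, abs_mul, fav_mul]

theorem fanti (s : ι → V) (hV : ∀ x : V, x + x = 0) (c : ℝ) (a : V → ι → ℝ) (ha : Anti s a)
    (f : V → ℝ) : Anti s (fun x i => c * (a x i - d0 s f x i)) := by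
  intro x i
  have h : x + s i + s i = x := by rw [add_assoc, hV, add_zero]
  have h2 := ha x i
  simp only [d0]
  rw [h, h2]
  ring

theorem fpoint (b : V → ι → ℝ) (x : V) (i : ι) :
    |b x i| ≤ (Fintype.card V : ℝ) * (Fintype.card ι : ℝ) * nrm1 b := by
  haveI : Nonempty V := ⟨0⟩
  have hV : (0 : ℝ) < (Fintype.card V : ℝ) := by exact_mod_cast Fintype.card_pos
  have hi : (0 : ℝ) < (Fintype.card ι : ℝ) := by exact_mod_cast Fintype.card_pos
  have e : (Fintype.card V : ℝ) * (Fintype.card ι : ℝ) * nrm1 b = ∑ y, ∑ k, |b y k| := by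
    unfold nrm1 av
    rw [← Finset.sum_div]
    field_simp
  rw [e]
  calc |b x i| ≤ ∑ k, |b x k| :=
        Finset.single_le_sum (f := fun k => |b x k|) (fun k _ => abs_nonneg _) (Finset.mem_univ i)
    _ ≤ ∑ y, ∑ k, |b y k| :=
        Finset.single_le_sum (f := fun y => ∑ k, |b y k|)
          (fun y _ => Finset.sum_nonneg fun k _ => abs_nonneg _) (Finset.mem_univ x)

/-- the coboundary as a linear map -/
def fD (s : ι → V) : (V → ℝ) →ₗ[ℝ] (V → ι → ℝ) where
  toFun f := d0 s f
  map_add' f g := by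
    funext x i
    simp only [d0, Pi.add_apply]
    ring
  map_smul' c f := by
    funext x i
    simp only [d0, Pi.smul_apply, smul_eq_mul, RingHom.id_apply]
    ring

theorem t_FILL (hS : S_STEP) : S_FILL := by
  obtain ⟨η0, hη0, hη1, δ0, hδ0, h⟩ := hS
  refine ⟨η0, hη0, hη1, 1 / δ0, by positivity, ?_⟩
  intro V ι _ _ _ _ s hV hG a ha
  by_contra hcon
  push Not at hcon
  have hpos : ∀ f : V → ℝ, 0 < nrm1 (fun x i => a x i - d0 s f x i) := fun f =>
    lt_of_le_of_lt (mul_nonneg (by positivity) (fnrm2_nonneg s a)) (hcon f)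
  have hhalf : ∀ f : V → ℝ, ∃ g : V → ℝ, nrm1 (fun x i => a x i - d0 s g x i) ≤
      nrm1 (fun x i => a x i - d0 s f x i) / 2 := by
    intro f
    set N := nrm1 (fun x i => a x i - d0 s f x i) with hN
    have hNpos : 0 < N := hpos f
    obtain ⟨g, hg⟩ := h V ι s hG (fun x i => N⁻¹ * (a x i - d0 s f x i)) (fanti s hV _ a ha f)
      (by
        rw [fnrm1_mul N⁻¹ (fun x i => a x i - d0 s f x i), ← hN, abs_of_pos (by positivity)]
        rw [inv_mul_cancel₀ hNpos.ne'])
      (by
        rw [fnrm2_mul, abs_of_pos (by positivity)]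
        have h1 := hcon f
        rw [← hN] at h1
        rw [inv_mul_le_iff₀ hNpos]
        rw [one_div, inv_mul_lt_iff₀ hδ0] at h1
        linarith)
    refine ⟨fun x => f x + N * g x, ?_⟩
    have e : (fun (x : V) (i : ι) => a x i - d0 s (fun x => f x + N * g x) x i) =
        fun x i => N * ((fun (x : V) (i : ι) => N⁻¹ * (a x i - d0 s f x i) - d0 s g x i) x i) := by
      funext x i
      simp only [d0]
      field_simp
      ring
    rw [e, fnrm1_mul N, abs_of_pos hNpos]
    nlinarith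
  have hseq : ∀ n : ℕ, ∃ f : V → ℝ, nrm1 (fun x i => a x i - d0 s f x i) ≤
      nrm1 (fun x i => a x i - d0 s (fun _ => 0) x i) * (1 / 2) ^ n := by
    intro n
    induction n with
    | zero => exact ⟨fun _ => 0, by simp⟩
    | succ n ih =>
      obtain ⟨f, hf⟩ := ih
      obtain ⟨g, hg⟩ := hhalf f
      refine ⟨g, hg.trans ?_⟩
      rw [pow_succ]
      linarith
  have hcl : IsClosed ((LinearMap.range (fD s) : Submodule ℝ (V → ι → ℝ)) : Set (V → ι → ℝ)) :=
    Submodule.closed_of_finiteDimensional _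
  have hmem : a ∈ closure ((LinearMap.range (fD s) : Submodule ℝ (V → ι → ℝ)) :
      Set (V → ι → ℝ)) := by
    rw [Metric.mem_closure_iff]
    intro ε hε
    haveI : Nonempty V := ⟨0⟩
    have hVc : (0 : ℝ) < (Fintype.card V : ℝ) := by exact_mod_cast Fintype.card_pos
    have hi : (0 : ℝ) < (Fintype.card ι : ℝ) := by exact_mod_cast Fintype.card_pos
    set K := (Fintype.card V : ℝ) * (Fintype.card ι : ℝ) with hK
    have hKpos : 0 < K := mul_pos hVc hi
    set A := nrm1 (fun x i => a x i - d0 s (fun _ => 0) x i) with hA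
    have hApos : 0 < A := hpos _
    obtain ⟨n, hn⟩ := exists_pow_lt_of_lt_one (show (0 : ℝ) < ε / (K * A) by positivity)
      (show (1 / 2 : ℝ) < 1 by norm_num)
    obtain ⟨f, hf⟩ := hseq n
    refine ⟨d0 s f, ⟨f, rfl⟩, ?_⟩
    rw [dist_pi_lt_iff hε]
    intro x
    rw [dist_pi_lt_iff hε]
    intro i
    rw [Real.dist_eq]
    have h1 := fpoint (fun x i => a x i - d0 s f x i) x i
    simp only [← hK] at h1
    rw [lt_div_iff₀ (by positivity)] at hn
    calc |a x i - d0 s f x i| ≤ K * nrm1 (fun x i => a x i - d0 s f x i) := h1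
      _ ≤ K * (A * (1 / 2) ^ n) := mul_le_mul_of_nonneg_left hf hKpos.le
      _ = (1 / 2) ^ n * (K * A) := by ring
      _ < ε := hn
  rw [hcl.closure_eq] at hmem
  obtain ⟨f, hf⟩ := hmem
  have h0 := hpos f
  have e : (fun (x : V) (i : ι) => a x i - d0 s f x i) = fun (x : V) (i : ι) => (0 : ℝ) * a x i := by
    funext x i
    have : d0 s f = a := hf
    rw [this]
    ring
  rw [e, fnrm1_mul] at h0
  simp at h0

end

end Run7.h376.EX
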